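import Pool.Agent.MGP.Stmts

/-!
# Squad MGP (MP_5f6ee5_nt), row GRP: from completely multiplicative functions to multisets
-/

set_option autoImplicit false

namespace Pool.Agent.MGP.H88

open Pool.Agent.MGP

/-- quotients of two elements of `P` -/
def gens (P : ℕ → Prop) : Set ℚˣ := {x | ∃ a b : ℕ, P a ∧ P b ∧ (x : ℚ) = a / b}

/-- the class of a natural number modulo the subgroup generated by the quotients -/
noncomputable def cls (P : ℕ → Prop) (n : ℕ) : ℚˣ ⧸ Subgroup.closure (gens P) :=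
  if h : (n : ℚ) = 0 then 1 else QuotientGroup.mk (Units.mk0 (n : ℚ) h)

theorem cls_pos (P : ℕ → Prop) {n : ℕ} (h : (n : ℚ) ≠ 0) :
    cls P n = QuotientGroup.mk (Units.mk0 (n : ℚ) h) := by
  unfold cls
  rw [dif_neg h]

theorem cls_oddMul (P : ℕ → Prop) : OddMul (cls P) := by
  intro m n hm hn
  have hm0 : (m : ℚ) ≠ 0 := by
    have := hm.pos
    positivity
  have hn0 : (n : ℚ) ≠ 0 := by
    have := hn.pos
    positivity
  have hmn : ((m * n : ℕ) : ℚ) ≠ 0 := by
    push_cast
    exact mul_ne_zero hm0 hn0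
  rw [cls_pos P hm0, cls_pos P hn0, cls_pos P hmn, ← QuotientGroup.mk_mul]
  congr 1
  apply Units.ext
  simp

theorem closure_multiset {P : ℕ → Prop} (hP : ∀ m, P m → 0 < m) {x : ℚˣ}
    (hx : x ∈ Subgroup.closure (gens P)) :
    ∃ A B : Multiset ℕ, A.card = B.card ∧ (∀ m ∈ A, P m) ∧ (∀ m ∈ B, P m) ∧
      (x : ℚ) * (A.prod : ℕ) = (B.prod : ℕ) := by
  induction hx using Subgroup.closure_induction with
  | mem x hx =>
    obtain ⟨a, b, ha, hb, hab⟩ := hx
    refine ⟨{b}, {a}, by simp, ?_, ?_, ?_⟩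
    · intro m hm
      rw [Multiset.mem_singleton.1 hm]
      exact hb
    · intro m hm
      rw [Multiset.mem_singleton.1 hm]
      exact ha
    · have hb0 : (b : ℚ) ≠ 0 := by
        have := hP b hb
        positivity
      rw [hab, Multiset.prod_singleton, Multiset.prod_singleton]
      field_simp
  | one =>
    refine ⟨0, 0, rfl, ?_, ?_, by simp⟩
    · intro m hm
      simp at hm
    · intro m hm
      simp at hm
  | mul x y _ _ hx hy =>
    obtain ⟨A, B, h1, h2, h3, h4⟩ := hx
    obtain ⟨A', B', h1', h2', h3', h4'⟩ := hy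
    refine ⟨A + A', B + B', ?_, ?_, ?_, ?_⟩
    · rw [Multiset.card_add, Multiset.card_add, h1, h1']
    · intro m hm
      rcases Multiset.mem_add.1 hm with h | h
      · exact h2 m h
      · exact h2' m h
    · intro m hm
      rcases Multiset.mem_add.1 hm with h | h
      · exact h3 m h
      · exact h3' m h
    · rw [Multiset.prod_add, Multiset.prod_add, Nat.cast_mul, Nat.cast_mul, Units.val_mul, ← h4,
        ← h4']
      ring
  | inv x _ hx =>
    obtain ⟨A, B, h1, h2, h3, h4⟩ := hx
    refine ⟨B, A, h1.symm, h3, h2, ?_⟩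
    rw [← h4, ← mul_assoc, ← Units.val_mul, inv_mul_cancel, Units.val_one, one_mul]

theorem grp : GrpStmt := by
  intro P n₀ hP hn₀ H
  have hn0 : (n₀ : ℚ) ≠ 0 := by
    have := hn₀.pos
    positivity
  have h1 : cls P n₀ = 1 := by
    by_cases hex : ∃ m0, P m0
    · obtain ⟨m0, hm0⟩ := hex
      refine H _ (cls P) (cls P m0) (cls_oddMul P) ?_
      intro m hm
      have h1 : (m : ℚ) ≠ 0 := by
        have := hP m hm
        positivity
      have h2 : (m0 : ℚ) ≠ 0 := by
        have := hP m0 hm0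
        positivity
      rw [cls_pos P h1, cls_pos P h2, QuotientGroup.eq]
      apply Subgroup.subset_closure
      refine ⟨m0, m, hm0, hm, ?_⟩
      rw [Units.val_mul, Units.val_inv_eq_inv_val, Units.val_mk0, Units.val_mk0, div_eq_mul_inv,
        mul_comm]
    · exact H _ (cls P) 1 (cls_oddMul P) (fun m hm => absurd ⟨m, hm⟩ hex)
  rw [cls_pos P hn0, QuotientGroup.eq_one_iff] at h1
  obtain ⟨A, B, h2, h3, h4, h5⟩ := closure_multiset hP h1
  refine ⟨A, B, h2, h3, h4, ?_⟩
  rw [Units.val_mk0] at h5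
  exact_mod_cast h5

end Pool.Agent.MGP.H88
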